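import Pool.Agent.L5helper93.HM.Mean

/-!
# Surfaces of mean curvature at most one in the 4-ball are ribbon surfaces

Let `F` be a compact surface which is smoothly, properly and transversally embedded in the closed
unit ball of Euclidean four-space (`PSurf`), so that the part in the open ball is a surface in
hyperbolic four-space (Poincaré model).

1. If the hyperbolic mean curvature vector of `F` has length at most one everywhere, then `F` is a
   ribbon surface: a diffeomorphism `push ξ` of the ball minus the boundary point `ξ`, which is the
   identity on the unit sphere, turns `F` into a surface on which the distance from the origin is a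
   Morse function without local maxima. The same holds if the Euclidean mean curvature vector has
   length at most one.
2. More generally, if the integral of the square of the positive part of `H · n - 1`, over the
   surface and over the unit normal vectors `n` (with weight `Q³`, see `upDens`), is less than
   `2 π² (m + 1)`, then the resulting surface has at most `m` local maxima.

For minimal surfaces in the Euclidean ball (`H = 0`) the first part is due to Hass. The bound one is
the mean curvature of the horospheres and of the unit sphere; it cannot be replaced by a greater
number by this method, as pieces of spheres around the origin show.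
-/

set_option autoImplicit false

namespace Pool.Agent.Results.MP_177a0e_gt.MeanCurvatureAtMostOne

open Pool.Agent.Y503.RB Pool.Agent.L5helper93.HM
open MeasureTheory Metric
open scoped ContDiff

/-- A diffeomorphism `push ξ` of the ball without a point `ξ` of the sphere, which is the identity on
the sphere, turns `F` into a surface on which the distance from the origin is a Morse function with
at most `m` local maxima in the interior. -/
def RibbonUpTo (F : Set E4) (m : ℕ) : Prop :=
  ∃ ξ : E4, ‖ξ‖ = 1 ∧ ξ ∉ F ∧
    (∀ x ∈ F, ContDiffAt ℝ ∞ (push ξ) x ∧ ContDiffAt ℝ ∞ (pull ξ) (push ξ x) ∧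
      pull ξ (push ξ x) = x) ∧
    (∀ x ∈ F, ‖x‖ = 1 → push ξ x = x) ∧
    PSurf (push ξ '' F) ∧ push ξ '' F ∩ sphere 0 1 = F ∩ sphere 0 1 ∧
    MorseSurf (push ξ '' F) m

/-- Surfaces in the 4-ball with mean curvature at most one are ribbon surfaces. -/
theorem result (F : Set E4) (hF : PSurf F) :
    (HypMeanLeOne F → RibbonUpTo F 0) ∧
    (EucMeanLeOne F → RibbonUpTo F 0) ∧
    (∀ m : ℕ, upEnergy F < ENNReal.ofReal (2 * Real.pi ^ 2 * (m + 1)) → RibbonUpTo F m) := by
  have h3 : ∀ m : ℕ, upEnergy F < ENNReal.ofReal (2 * Real.pi ^ 2 * (m + 1)) →
      RibbonUpTo F m := fun m hm =>
    surfaces F hF m (lt_of_le_of_lt (totalCurv_le F) hm)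
  have h1 : HypMeanLeOne F → RibbonUpTo F 0 := by
    intro h
    apply h3
    rw [upEnergy_zero hF h]
    exact ENNReal.ofReal_pos.2 (by positivity)
  exact ⟨h1, fun h => h1 (hyp_of_euc h), h3⟩

end Pool.Agent.Results.MP_177a0e_gt.MeanCurvatureAtMostOne
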