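import Pool.Agent.Results.MP_177a0e_gt.NoBigonsInside
import Pool.Agent.R800.AN.Main
import Pool.Agent.L5helper60.MD.Base
import Pool.Agent.L5helper60.MD.Cob

/-!
# Ribbon genus and slice genus on classes of concordances, and minimal diagrams

The movies here go from the knot into the 4-ball, so that births of components are the local maxima
of the distance from the centre of the 4-ball. In the projection of a surface, the triple points are
the Reidemeister moves of type III in its movie. `GMovie g n [(K, 0)] [(k, 0)]` says that there is a
cobordism from the knot `K` to the knot `k` with `g` handles and `n` births, `GMovie g n [(K, 0)] []`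
that `K` bounds a surface of genus `g` with `n` births; it is a ribbon surface if `n = 0`.

Two knot diagrams are in the same class (`SameClass`) if they are joined by a chain of cobordisms of
three kinds: concordances without triple points; cobordisms with inessential handles and arbitrarily
many triple points which are free (`FreeCob`); cobordisms with inessential handles and arbitrarily
many triple points whose double curves cross evenly (`EvenCob`). A handle is inessential if it cuts
off a component passing only through crossings on double curves not meeting the knots. A diagram is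
`Least` if it has the least number of crossings in its class.

Each class contains exactly one least diagram, up to the names of the crossings and the starting
point. A diagram is least if and only if it cannot be simplified by a movie without births and triple
points; alternating, positive and negative diagrams without kinks are least. The ribbon genus is
largest at the least diagram of the class, and Q1 for it implies Q1 for the whole class.
-/

set_option autoImplicit false

namespace Pool.Agent.Results.MP_177a0e_gt.MinimalDiagrams

open Pool.Agent.Y468.SR Pool.Agent.R800.AN Pool.Agent.R800.IR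
open Pool.Agent.L5helper60.MD (FreeCob EvenCob common_of_freeCob common_of_evenCob)
open Pool.Agent.Results.MP_177a0e_gt.NoBigonsInside (GMovie GMovie.of_movie GMovie.trade)

/-- The two classical knots are joined by a concordance without triple points, or by a cobordism with
inessential handles which has free triple points only, or whose double curves meeting the knots
cross evenly. -/
def Joined (k k' : List Pass) : Prop :=
  (Classical [(k, 0)] ∧ Classical [(k', 0)] ∧ Movie false true [(k, 0)] [(k', 0)]) ∨
    FreeCob k k' ∨ EvenCob k k'

/-- The two knots are joined by a chain of such cobordisms (in either direction). -/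
def SameClass : List Pass → List Pass → Prop := Relation.EqvGen Joined

/-- The knot bounds a surface of genus `g` in the 4-ball. -/
def Bounds (w : List Pass) (g : ℕ) : Prop := ∃ n, GMovie g n [(w, 0)] []

/-- The knot bounds a ribbon surface of genus `g` in the 4-ball. -/
def BoundsRibbon (w : List Pass) (g : ℕ) : Prop := GMovie g 0 [(w, 0)] []

/-- The ribbon genus of the knot exceeds its slice genus by at most `d`: if it bounds a surface of
genus `g`, then also a ribbon surface of genus at most `g + d`. For `d = 0` the answer to Q1 is yes
for this knot. -/
def GapAtMost (w : List Pass) (d : ℕ) : Prop := ∀ g, Bounds w g → ∃ g' ≤ g + d, BoundsRibbon w g'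

/-- The diagram has the least number of crossings in its class. -/
def Least (j : List Pass) : Prop := ∀ K, SameClass j K → j.length ≤ K.length

/-- The same diagram up to the names of the crossings and the starting point. -/
def SameDiagram (j K : List Pass) : Prop :=
  ∃ f : ℕ → ℕ, (∀ p ∈ j, ∀ q ∈ j, f p.crossing = f q.crossing → p.crossing = q.crossing) ∧
    (j.map fun p => (⟨f p.crossing, p.isOver, p.isPos⟩ : Pass)).IsRotated K

theorem gtrans {g n g' n' : ℕ} {A B E : Code} (h : GMovie g n A B) (h' : GMovie g' n' B E) :
    GMovie (g + g') (n + n') A E := by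
  induction h with
  | refl D h => simpa using h'
  | step h hs _ ih => exact (ih h').step h hs
  | @birth g n D E h b hb _ ih =>
    have := GMovie.birth h b hb (ih h')
    rwa [show n + n' + 1 = n + 1 + n' by omega] at this
  | @handle g n R E x y b h _ ih =>
    have := GMovie.handle x y b h (ih h')
    rwa [show g + g' + 1 = g + 1 + g' by omega] at this

theorem gclassical {g n : ℕ} {D E : Code} (h : GMovie g n D E) : Classical D := by
  cases h with
  | refl _ h => exact h
  | step h _ _ => exact h
  | birth h _ _ _ => exact h
  | handle _ _ _ h _ => exact h

theorem of_births {D D' : Code} (h : Movie true true D D') (hD' : Classical D') :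
    ∃ n, GMovie 0 n D D' := by
  induction h using Relation.ReflTransGen.head_induction_on with
  | refl => exact ⟨0, .refl D' hD'⟩
  | head h _ ih =>
    obtain ⟨n, hm⟩ := ih
    obtain ⟨c1, c2, hs⟩ := h
    cases hs with
    | perm _ _ h => exact ⟨n, hm.step c1 (.perm _ _ h)⟩
    | rename f _ hf => exact ⟨n, hm.step c1 (.rename f _ hf)⟩
    | rotate x y b R => exact ⟨n, hm.step c1 (.rotate x y b R)⟩
    | reid _ _ h => exact ⟨n, hm.step c1 (.reid _ _ h)⟩
    | reidInv _ _ h => exact ⟨n, hm.step c1 (.reidInv _ _ h)⟩
    | death b R hb => exact ⟨n, hm.step c1 (.death b _ hb)⟩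
    | birth h b R hb => exact ⟨n + 1, GMovie.birth c1 b hb hm⟩
    | split x y b b' R hb => exact ⟨n, hm.step c1 (.split x y b b' R hb)⟩
    | merge x y b R => exact ⟨n, hm.step c1 (.merge x y b R)⟩

theorem common_of_joined {k k' : List Pass} (h : Joined k k') :
    ∃ j, Movie false false [(k, 0)] [(j, 0)] ∧ Movie false false [(k', 0)] [(j, 0)] := by
  rcases h with ⟨h1, h2, h3⟩ | h | h
  · obtain ⟨j, j1, j2, -⟩ := common_of_movie h1 h2 h3
    exact ⟨j, j1, j2⟩
  · exact common_of_freeCob h
  · exact common_of_evenCob h

theorem class_movie {k k' : List Pass} (h : SameClass k k') :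
    Movie false true [(k, 0)] [(k', 0)] ∧ Movie false true [(k', 0)] [(k, 0)] :=
  movie_of_eqvGen (fun _ _ h => common_of_joined h) h

theorem class_classical {k k' : List Pass} (h : SameClass k k') (hk : Classical [(k, 0)]) :
    Classical [(k', 0)] := classical_of_movie (class_movie h).1 hk

theorem bounds_of_movie {K j : List Pass} (h : Movie false true [(K, 0)] [(j, 0)]) {g : ℕ}
    (hb : Bounds j g) : Bounds K g := by
  obtain ⟨n, hn⟩ := hb
  obtain ⟨m, hm⟩ := of_births (movie_mono h) (gclassical hn)
  have := gtrans hm hn
  rw [Nat.zero_add] at this
  exact ⟨m + n, this⟩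

theorem ribbon_of_gmovie {K j : List Pass} (h : Movie false false [(K, 0)] [(j, 0)]) {g : ℕ}
    (hb : BoundsRibbon j g) : BoundsRibbon K g := GMovie.of_movie (movie_mono h) hb

theorem joined_mem {j l : List Pass} (hj : Classical [(j, 0)])
    (h : Movie false false [(j, 0)] [(l, 0)]) : SameClass j l :=
  Relation.EqvGen.rel _ _ (Or.inl ⟨hj, classical_of_movie h hj, movie_births h⟩)

/-- A diagram with the least number of crossings is a minimum of its class for ribbon concordance. -/
theorem minimum {j : List Pass} (hj : Classical [(j, 0)]) (hl : Least j) {K : List Pass}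
    (h : SameClass j K) : Movie false false [(K, 0)] [(j, 0)] := by
  obtain ⟨m1, m2⟩ := class_movie h
  have hK := classical_of_movie m1 hj
  obtain ⟨l, l1, l2, l3⟩ := common_of_movie hK hj m2
  rcases l3 with rfl | l3
  · exact l1
  · exfalso
    have := hl l (joined_mem hj l2)
    omega

theorem exists_least {k : List Pass} (hk : Classical [(k, 0)]) :
    ∃ j, Classical [(j, 0)] ∧ SameClass k j ∧ Least j := by
  classical
  have hne : ∃ n, ∃ j : List Pass, j.length = n ∧ SameClass k j :=
    ⟨k.length, k, rfl, Relation.EqvGen.refl _⟩
  obtain ⟨j, hj, hkj⟩ := Nat.find_spec hne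
  refine ⟨j, class_classical hkj hk, hkj, fun K hK => ?_⟩
  rw [hj]
  exact Nat.find_min' hne ⟨K, rfl, Relation.EqvGen.trans _ _ _ hkj hK⟩

theorem least_of_irr {k : List Pass} (hk : Classical [(k, 0)]) (hI : Irr k) : Least k :=
  fun _ hK => Pool.Agent.L5helper60.MD.irr_length_le hk (class_classical hK hk) hI
    (class_movie hK).1

theorem unique {j K : List Pass} (hj : Classical [(j, 0)]) (hl : Least j) (h : SameClass j K)
    (hK : Least K) : SameDiagram j K :=
  Pool.Agent.L5helper60.MD.same_of_least hj (class_classical h hj)
    (fun w hw => hl w (joined_mem hj hw)) (hK j (Relation.EqvGen.symm _ _ h)) (class_movie h).1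

theorem main {j : List Pass} (hj : Classical [(j, 0)]) (hl : Least j) :
    (∀ K, SameClass j K → Movie true false [(K, 0)] [(j, 0)] ∧
      (∀ g, Bounds K g ↔ Bounds j g) ∧ (∀ g, BoundsRibbon j g → BoundsRibbon K g) ∧
      (∀ d, GapAtMost j d → GapAtMost K d) ∧ (Least K → SameDiagram j K)) ∧
    (∀ (K k₀ : List Pass) (g n : ℕ), GMovie g n [(K, 0)] [(k₀, 0)] → SameClass j k₀ →
      (∀ g', BoundsRibbon j g' → BoundsRibbon K (g + n + g')) ∧
      ∀ d, GapAtMost j d → (∀ h, Bounds K h → ∃ h', Bounds j h' ∧ g + h' ≤ h) →
        GapAtMost K (n + d)) := by
  refine ⟨fun K hK => ?_, fun K k₀ g n hm hc => ?_⟩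
  · have m := minimum hj hl hK
    have hb : ∀ g, Bounds K g ↔ Bounds j g := fun g =>
      ⟨bounds_of_movie (class_movie hK).1, bounds_of_movie (class_movie hK).2⟩
    refine ⟨movie_mono m, hb, fun g => ribbon_of_gmovie m, fun d hQ g hg => ?_,
      fun h => unique hj hl hK h⟩
    obtain ⟨g', h1, h2⟩ := hQ g ((hb g).1 hg)
    exact ⟨g', h1, ribbon_of_gmovie m h2⟩
  · have m := minimum hj hl hc
    have key : ∀ g', BoundsRibbon j g' → BoundsRibbon K (g + n + g') := by
      intro g' h'
      have h1 := gtrans hm (ribbon_of_gmovie m h')
      have h2 := h1.trade
      rwa [show g + g' + (n + 0) = g + n + g' by omega] at h2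
    refine ⟨key, fun d hQ hopt h hh => ?_⟩
    obtain ⟨h', h1, h2⟩ := hopt h hh
    obtain ⟨g', h3, h4⟩ := hQ h' h1
    exact ⟨g + n + g', by omega, key g' h4⟩

/-- A diagram is least in its class if and only if it cannot be simplified by a movie without births
and triple points. -/
theorem least_iff {k : List Pass} (hk : Classical [(k, 0)]) :
    Least k ↔ ∀ w, Movie false false [(k, 0)] [(w, 0)] → k.length ≤ w.length := by
  refine ⟨fun h w hw => h w (joined_mem hk hw), fun h K hK => ?_⟩
  obtain ⟨i, hi, hc, hl⟩ := exists_least hk
  have m := minimum hi hl (Relation.EqvGen.symm _ _ hc)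
  exact (h i m).trans (hl K (Relation.EqvGen.trans _ _ _ (Relation.EqvGen.symm _ _ hc) hK))

/-- (1) Let `j` be a least diagram. For every diagram `K` in its class there is a ribbon concordance
from `j` to `K` (a movie from `K` to `j` without births), `K` and `j` bound surfaces of the same
genera, `K` bounds a ribbon surface of genus `g` if `j` does, and if the ribbon genus exceeds the
slice genus by at most `d` for `j` (for `d = 0`: if the answer to Q1 is yes for `j`), then also for
`K`; if `K` is least too, then it is the same diagram. More generally let there be a cobordism with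
`g` handles and `n` births from any knot `K` to a knot in the class of `j`. Then `K` bounds a ribbon
surface of genus `g + n + g'` if `j` bounds one of genus `g'`; and if the slice genus of `K` is at
least `g` more than that of `j`, then the gap of `K` is at most `n` more than that of `j`.

(2) Every class contains a least diagram. A diagram is least if and only if there is no movie without
births and triple points (Reidemeister moves of types I and II, saddles, deaths) from it to a knot
diagram with fewer crossings. Irreducible diagrams (alternating, positive or negative ones without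
kinks, for instance) are least.

(3) For every `d` the gap between ribbon genus and slice genus is at most `d` for all knots if and only
if it is so for all least diagrams. For `d = 0` this is Q1.

(4) If the gap is greater than `d` for some knots, then those diagrams of such knots with the least
number of crossings are least diagrams, hence minima of their classes. -/
theorem result :
    (∀ j : List Pass, Classical [(j, 0)] → Least j →
      (∀ K, SameClass j K → Movie true false [(K, 0)] [(j, 0)] ∧
        (∀ g, Bounds K g ↔ Bounds j g) ∧ (∀ g, BoundsRibbon j g → BoundsRibbon K g) ∧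
        (∀ d, GapAtMost j d → GapAtMost K d) ∧ (Least K → SameDiagram j K)) ∧
      (∀ (K k₀ : List Pass) (g n : ℕ), GMovie g n [(K, 0)] [(k₀, 0)] → SameClass j k₀ →
        (∀ g', BoundsRibbon j g' → BoundsRibbon K (g + n + g')) ∧
        ∀ d, GapAtMost j d → (∀ h, Bounds K h → ∃ h', Bounds j h' ∧ g + h' ≤ h) →
          GapAtMost K (n + d))) ∧
    (∀ k : List Pass, Classical [(k, 0)] →
      (∃ j, Classical [(j, 0)] ∧ SameClass k j ∧ Least j) ∧
      (Least k ↔ ∀ w, Movie false false [(k, 0)] [(w, 0)] → k.length ≤ w.length) ∧
      (Irr k → Least k)) ∧
    (∀ d : ℕ, (∀ k : List Pass, Classical [(k, 0)] → GapAtMost k d) ↔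
      ∀ j : List Pass, Classical [(j, 0)] → Least j → GapAtMost j d) ∧
    ∀ (d : ℕ) (k : List Pass), Classical [(k, 0)] → ¬GapAtMost k d →
      (∀ k' : List Pass, Classical [(k', 0)] → ¬GapAtMost k' d → k.length ≤ k'.length) → Least k := by
  refine ⟨fun j hj hl => main hj hl, fun k hk => ⟨exists_least hk, least_iff hk, least_of_irr hk⟩,
    fun d => ⟨fun h j hj _ => h j hj, fun h k hk => ?_⟩, fun d k hk hQ hmin K hK => ?_⟩
  · obtain ⟨j, hj, hc, hl⟩ := exists_least hk
    exact ((main hj hl).1 k (Relation.EqvGen.symm _ _ hc)).2.2.2.1 d (h j hj hl)
  · obtain ⟨j, hj, hc, hl⟩ := exists_least hk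
    have h1 : ¬GapAtMost j d := fun hj' =>
      hQ (((main hj hl).1 k (Relation.EqvGen.symm _ _ hc)).2.2.2.1 d hj')
    exact (hmin j hj h1).trans (hl K (Relation.EqvGen.trans _ _ _ (Relation.EqvGen.symm _ _ hc) hK))

end Pool.Agent.Results.MP_177a0e_gt.MinimalDiagrams
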